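import Pool.Agent.H722R2.AA.Junta

/-!
# Cloning vertices
-/

set_option autoImplicit false
set_option linter.unusedSectionVars false

namespace Pool.Agent.H722R2.AA

open Finset Polynomial

variable {V E : Type*} [Fintype V] [DecidableEq V] [Fintype E] [DecidableEq E]
  [MulAction (Equiv.Perm V) E]

/-- `supp` is a support function for the action of the permutations of `V` on `E`. -/
structure IsSupport (supp : E → Finset V) : Prop where
  fix : ∀ (π : Equiv.Perm V) (e : E), (∀ v ∈ supp e, π v = v) → π • e = e
  equi : ∀ (π : Equiv.Perm V) (e : E), supp (π • e) = (supp e).image π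

variable {supp : E → Finset V}

lemma IsSupport.smul_eq (hs : IsSupport supp) (π π' : Equiv.Perm V) (e : E)
    (h : ∀ v ∈ supp e, π v = π' v) : π • e = π' • e := by
  have h1 : (π'⁻¹ * π) • e = e := by
    apply hs.fix
    intro v hv
    rw [Equiv.Perm.mul_apply, h v hv]
    simp
  rw [mul_smul, inv_smul_eq_iff] at h1
  exact h1

open Classical in
/-- The pull back of `x` along a map `ρ` (value `1` at the places where `ρ` collapses the
support). -/
noncomputable def pull (supp : E → Finset V) (x : E → ℝ) (ρ : V → V) (e : E) : ℝ :=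
  if h : ∃ π : Equiv.Perm V, ∀ v ∈ supp e, π v = ρ v then x (h.choose • e) else 1

lemma pull_eq (hs : IsSupport supp) (x : E → ℝ) (ρ : V → V) (e : E) (π : Equiv.Perm V)
    (h : ∀ v ∈ supp e, π v = ρ v) : pull supp x ρ e = x (π • e) := by
  have hex : ∃ π : Equiv.Perm V, ∀ v ∈ supp e, π v = ρ v := ⟨π, h⟩
  unfold pull
  rw [dif_pos hex]
  congr 1
  apply hs.smul_eq
  intro v hv
  rw [hex.choose_spec v hv, h v hv]

lemma pull_congr (hs : IsSupport supp) (x : E → ℝ) (ρ ρ' : V → V) (e : E)
    (h : ∀ v ∈ supp e, ρ v = ρ' v) : pull supp x ρ e = pull supp x ρ' e := by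
  by_cases hex : ∃ π : Equiv.Perm V, ∀ v ∈ supp e, π v = ρ v
  · obtain ⟨π, hπ⟩ := hex
    rw [pull_eq hs x ρ e π hπ, pull_eq hs x ρ' e π (fun v hv => by rw [hπ v hv, h v hv])]
  · have hex' : ¬ ∃ π : Equiv.Perm V, ∀ v ∈ supp e, π v = ρ' v := by
      rintro ⟨π, hπ⟩
      exact hex ⟨π, fun v hv => by rw [hπ v hv, h v hv]⟩
    unfold pull
    rw [dif_neg hex, dif_neg hex']

lemma pull_isSgn (x : E → ℝ) (hx : IsSgn x) (ρ : V → V) : IsSgn (pull supp x ρ) := by
  intro e
  unfold pull
  split_ifs with h
  · exact hx _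
  · left; rfl

lemma pull_id (hs : IsSupport supp) (x : E → ℝ) (ρ : V → V) (h : ∀ v, ρ v = v) :
    pull supp x ρ = x := by
  funext e
  rw [pull_eq hs x ρ e 1 (fun v _ => by rw [h v]; rfl), one_smul]

lemma pull_comp (hs : IsSupport supp) (x : E → ℝ) (ρ : V → V) (π : Equiv.Perm V)
    (h : ∀ v, ρ (π v) = ρ v) (e : E) : pull supp x ρ (π • e) = pull supp x ρ e := by
  by_cases hex : ∃ σ : Equiv.Perm V, ∀ v ∈ supp e, σ v = ρ v
  · obtain ⟨σ, hσ⟩ := hex
    rw [pull_eq hs x ρ e σ hσ, pull_eq hs x ρ (π • e) (σ * π⁻¹)]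
    · rw [smul_smul, inv_mul_cancel_right]
    · intro v hv
      rw [hs.equi, Finset.mem_image] at hv
      obtain ⟨w, hw, rfl⟩ := hv
      simp [hσ w hw, h w]
  · have hex' : ¬ ∃ σ : Equiv.Perm V, ∀ v ∈ supp (π • e), σ v = ρ v := by
      rintro ⟨σ, hσ⟩
      apply hex
      refine ⟨σ * π, fun v hv => ?_⟩
      rw [Equiv.Perm.mul_apply, hσ (π v), h v]
      rw [hs.equi]
      exact Finset.mem_image_of_mem _ hv
    unfold pull
    rw [dif_neg hex, dif_neg hex']

/-- the coefficients `c` are invariant under the colour preserving permutations -/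
def Inv {K : Type*} (col : V → K) (c : Finset E → ℝ) : Prop :=
  ∀ π : Equiv.Perm V, (∀ v, col (π v) = col v) → ∀ y : E → ℝ, IsSgn y →
    ml c (fun e => y (π • e)) = ml c y

lemma dl_smul {K : Type*} {col : V → K} {c : Finset E → ℝ} (hc : Inv col c) (π : Equiv.Perm V)
    (hπ : ∀ v, col (π v) = col v) (e : E) (y : E → ℝ) (hy : IsSgn y) :
    dl c (π • e) y = dl c e (fun e' => y (π • e')) := by
  have key : ∀ t : ℝ, (t = 1 ∨ t = -1) → ml c (Function.update y (π • e) t)
      = ml c (Function.update (fun e' => y (π • e')) e t) := by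
    intro t ht
    rw [← hc π hπ (Function.update y (π • e) t)]
    · congr 1
      funext e'
      by_cases h : e' = e
      · subst h; simp
      · rw [Function.update_of_ne h, Function.update_of_ne]
        intro h'
        exact h (smul_left_cancel _ h')
    · intro e'
      by_cases h : e' = π • e
      · subst h; rw [Function.update_self]; exact ht
      · rw [Function.update_of_ne h]; exact hy e'
  rw [dl_eq, dl_eq, key 1 (Or.inl rfl), key (-1) (Or.inr rfl)]

/-- Collapse map of a labelling. -/
def coll (T : V → Option V) (w : V) : V := (T w).getD w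

/-- The labelling `T` is good: label `u` only for `u ∈ s` and vertices of the colour of `u`. -/
structure Good {K : Type*} (col : V → K) (s : Finset V) (T : V → Option V) : Prop where
  base : ∀ u ∈ s, T u = some u
  lab : ∀ w u, T w = some u → u ∈ s ∧ col u = col w

/-- number of tuples of clones -/
def cnt (s : Finset V) (T : V → Option V) : ℕ := ∏ u ∈ s, (univ.filter fun w => T w = some u).card

/-- the involution exchanging `u` and `φ u`. -/
def swp (T : V → Option V) (φ : V → V) (w : V) : V :=
  match T w with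
  | none => w
  | some u => if w = u then φ u else if w = φ u then u else w

/-- Choice functions of clones. -/
def Phi (s : Finset V) (T : V → Option V) : Finset (V → V) :=
  Fintype.piFinset (fun u => if u ∈ s then univ.filter (fun w => T w = some u) else {u})

lemma card_Phi (s : Finset V) (T : V → Option V) : (Phi s T).card = cnt s T := by
  unfold Phi cnt
  rw [Fintype.card_piFinset, ← Finset.prod_subset (Finset.subset_univ s)]
  · refine Finset.prod_congr rfl fun u hu => ?_
    rw [if_pos hu]
  · intro u _ hu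
    rw [if_neg hu]; simp

lemma mem_Phi {s : Finset V} {T : V → Option V} {φ : V → V} :
    φ ∈ Phi s T ↔ (∀ u ∈ s, T (φ u) = some u) ∧ ∀ u ∉ s, φ u = u := by
  unfold Phi
  rw [Fintype.mem_piFinset]
  constructor
  · intro h
    refine ⟨fun u hu => ?_, fun u hu => ?_⟩
    · have := h u
      rw [if_pos hu] at this
      simpa using this
    · have := h u
      rw [if_neg hu] at this
      simpa using this
  · rintro ⟨h1, h2⟩ u
    split_ifs with hu
    · simp [h1 u hu]
    · simp [h2 u hu]

lemma swp_label {K : Type*} {col : V → K} {s : Finset V} {T : V → Option V} (hT : Good col s T)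
    {φ : V → V} (hφ : φ ∈ Phi s T) (w : V) : T (swp T φ w) = T w := by
  rw [mem_Phi] at hφ
  unfold swp
  cases h : T w with
  | none => simpa using h
  | some u =>
    have hu := (hT.lab w u h).1
    simp only
    split_ifs with h1 h2
    · exact hφ.1 u hu
    · exact hT.base u hu
    · exact h

lemma swp_invol {K : Type*} {col : V → K} {s : Finset V} {T : V → Option V} (hT : Good col s T)
    {φ : V → V} (hφ : φ ∈ Phi s T) : Function.Involutive (swp T φ) := by
  intro w
  have hl := swp_label hT hφ w
  cases h : T w with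
  | none =>
    have e1 : swp T φ w = w := by unfold swp; rw [h]
    rw [e1, e1]
  | some u =>
    have e1 : ∀ w', T w' = some u → swp T φ w' = if w' = u then φ u else if w' = φ u then u else w' := by
      intro w' hw'; unfold swp; rw [hw']
    rw [h] at hl
    rw [e1 _ hl, e1 w h]
    by_cases h1 : w = u
    · rw [if_pos h1]
      by_cases h2 : φ u = u
      · rw [if_pos h2, h2, h1]
      · rw [if_neg h2, if_pos rfl, h1]
    · rw [if_neg h1]
      by_cases h2 : w = φ u
      · rw [if_pos h2, if_pos rfl, h2]
      · rw [if_neg h2, if_neg h1, if_neg h2]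

lemma swp_col {K : Type*} {col : V → K} {s : Finset V} {T : V → Option V} (hT : Good col s T)
    {φ : V → V} (hφ : φ ∈ Phi s T) (w : V) : col (swp T φ w) = col w := by
  have hl := swp_label hT hφ w
  cases h : T w with
  | none =>
    have e1 : swp T φ w = w := by unfold swp; rw [h]
    rw [e1]
  | some u =>
    rw [h] at hl
    rw [← (hT.lab _ u hl).2, ← (hT.lab w u h).2]

lemma coll_swp {K : Type*} {col : V → K} {s : Finset V} {T : V → Option V} (hT : Good col s T)
    {φ : V → V} (hφ : φ ∈ Phi s T) (w : V) : coll T (swp T φ w) = coll T w := by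
  have hl := swp_label hT hφ w
  unfold coll
  cases h : T w with
  | none =>
    have e1 : swp T φ w = w := by unfold swp; rw [h]
    rw [e1, h]
  | some u => rw [hl, h]; rfl

lemma swp_base {K : Type*} {col : V → K} {s : Finset V} {T : V → Option V} (hT : Good col s T)
    {φ : V → V} {u : V} (hu : u ∈ s) : swp T φ u = φ u := by
  unfold swp
  rw [hT.base u hu]
  simp

/-- The derivative at a point with many clones is small. -/
lemma dl_clone (hs : IsSupport supp) {K : Type*} {col : V → K} {c : Finset E → ℝ} {d : ℕ}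
    (hd : ∀ S, d < S.card → c S = 0) (hc : Inv col c) {B : ℝ}
    (hB : ∀ y, IsSgn y → |ml c y| ≤ B) (e : E) (x : E → ℝ) (hx : IsSgn x) (T : V → Option V)
    (hT : Good col (supp e) T) :
    (cnt (supp e) T : ℝ) * |dl c e (pull supp x (coll T))| ≤ (d : ℝ) ^ 2 * B := by
  classical
  set y := pull supp x (coll T) with hy
  have hys : IsSgn y := pull_isSgn x hx _
  -- the permutations
  let P : (V → V) → Equiv.Perm V := fun φ =>
    if h : φ ∈ Phi (supp e) T then (swp_invol hT h).toPerm (swp T φ) else 1
  have hP : ∀ φ ∈ Phi (supp e) T, ∀ w, P φ w = swp T φ w := by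
    intro φ hφ w
    simp only [P, dif_pos hφ, Function.Involutive.coe_toPerm]
  have hPc : ∀ φ ∈ Phi (supp e) T, ∀ v, col (P φ v) = col v := by
    intro φ hφ v; rw [hP φ hφ, swp_col hT hφ]
  have hyP : ∀ φ ∈ Phi (supp e) T, ∀ e', y (P φ • e') = y e' := by
    intro φ hφ e'
    apply pull_comp hs
    intro v
    rw [hP φ hφ, coll_swp hT hφ]
  have hdP : ∀ φ ∈ Phi (supp e) T, dl c (P φ • e) y = dl c e y := by
    intro φ hφ
    rw [dl_smul hc (P φ) (hPc φ hφ) e y hys]
    congr 1
    funext e'
    exact hyP φ hφ e'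
  let A : Finset E := (Phi (supp e) T).image (fun φ => P φ • e)
  have hinj : Set.InjOn (fun φ => P φ • e) (Phi (supp e) T : Set (V → V)) := by
    intro φ hφ φ' hφ' heq
    simp only at heq
    have hφm := mem_Phi.1 hφ
    have hφm' := mem_Phi.1 hφ'
    have h1 : supp (P φ • e) = supp (P φ' • e) := by rw [heq]
    rw [hs.equi, hs.equi] at h1
    funext u
    by_cases hu : u ∈ supp e
    · have h2 : φ u ∈ (supp e).image (P φ) := by
        rw [Finset.mem_image]
        exact ⟨u, hu, by rw [hP φ hφ, swp_base hT hu]⟩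
      rw [h1, Finset.mem_image] at h2
      obtain ⟨u', hu', h3⟩ := h2
      rw [hP φ' hφ', swp_base hT hu'] at h3
      have h4 := hφm.1 u hu
      rw [← h3, hφm'.1 u' hu'] at h4
      have h5 : u' = u := by simpa using h4
      rw [← h3, h5]
    · rw [hφm.2 u hu, hφm'.2 u hu]
  have hcard : A.card = cnt (supp e) T := by
    rw [← card_Phi]
    exact Finset.card_image_of_injOn hinj
  have hsum : ∑ e' ∈ A, y e' * dl c e' y = (cnt (supp e) T : ℝ) * (y e * dl c e y) := by
    have : ∀ e' ∈ A, y e' * dl c e' y = y e * dl c e y := by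
      intro e' he'
      rw [Finset.mem_image] at he'
      obtain ⟨φ, hφ, rfl⟩ := he'
      rw [hdP φ hφ, hyP φ hφ]
    rw [Finset.sum_congr rfl this, Finset.sum_const, hcard, nsmul_eq_mul]
  have hm := markov_pt c d hd B hB y hys A
  rw [hsum, abs_mul, abs_mul] at hm
  have hye : |y e| = 1 := by rcases hys e with h | h <;> rw [h] <;> norm_num
  rw [hye, one_mul, Nat.abs_cast] at hm
  exact hm

end Pool.Agent.H722R2.AA
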