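import Pool.Agent.H722R2.AA.Poly

/-!
# Multilinear polynomials on the cube and a pointwise Markov bound
-/

set_option autoImplicit false

namespace Pool.Agent.H722R2.AA

open Finset Polynomial

variable {E : Type*} [Fintype E] [DecidableEq E]

/-- The multilinear polynomial with coefficients `c`. -/
noncomputable def ml (c : Finset E → ℝ) (y : E → ℝ) : ℝ := ∑ S : Finset E, c S * ∏ e ∈ S, y e

/-- Its derivative in the direction `a`. -/
noncomputable def dl (c : Finset E → ℝ) (a : E) (y : E → ℝ) : ℝ :=
  ∑ S : Finset E, if a ∈ S then c S * ∏ e ∈ S.erase a, y e else 0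

/-- Sign vectors. -/
def IsSgn (y : E → ℝ) : Prop := ∀ e, y e = 1 ∨ y e = -1

lemma prod_update_mem (S : Finset E) (a : E) (ha : a ∈ S) (y : E → ℝ) (t : ℝ) :
    ∏ e ∈ S, Function.update y a t e = t * ∏ e ∈ S.erase a, y e := by
  rw [← Finset.mul_prod_erase S _ ha, Function.update_self]
  congr 1
  refine Finset.prod_congr rfl fun e he => ?_
  rw [Function.update_of_ne (Finset.ne_of_mem_erase he)]

lemma prod_update_notMem (S : Finset E) (a : E) (ha : a ∉ S) (y : E → ℝ) (t : ℝ) :
    ∏ e ∈ S, Function.update y a t e = ∏ e ∈ S, y e := by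
  refine Finset.prod_congr rfl fun e he => ?_
  rw [Function.update_of_ne]
  rintro rfl
  exact ha he

lemma ml_update (c : Finset E → ℝ) (a : E) (y : E → ℝ) (t : ℝ) :
    ml c (Function.update y a t) = ml c (Function.update y a 0) + t * dl c a y := by
  unfold ml dl
  rw [Finset.mul_sum, ← Finset.sum_add_distrib]
  refine Finset.sum_congr rfl fun S _ => ?_
  by_cases ha : a ∈ S
  · rw [prod_update_mem S a ha, prod_update_mem S a ha, if_pos ha]; ring
  · rw [prod_update_notMem S a ha, prod_update_notMem S a ha, if_neg ha]; ring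

lemma dl_eq (c : Finset E → ℝ) (a : E) (y : E → ℝ) :
    dl c a y = (ml c (Function.update y a 1) - ml c (Function.update y a (-1))) / 2 := by
  rw [ml_update c a y 1, ml_update c a y (-1)]; ring

lemma abs_ml_le_of_mem (c : Finset E → ℝ) (B : ℝ) (hB : ∀ y, IsSgn y → |ml c y| ≤ B)
    (A : Finset E) : ∀ y : E → ℝ, (∀ e ∈ A, |y e| ≤ 1) → (∀ e ∉ A, y e = 1 ∨ y e = -1) →
      |ml c y| ≤ B := by
  induction A using Finset.induction_on with
  | empty => intro y _ h; exact hB y (fun e => h e (by simp))
  | insert a A ha ih =>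
    intro y h1 h2
    have e1 : ml c y = (1 + y a) / 2 * ml c (Function.update y a 1)
        + (1 - y a) / 2 * ml c (Function.update y a (-1)) := by
      have h3 := ml_update c a y (y a)
      rw [Function.update_eq_self] at h3
      rw [h3, ml_update c a y 1, ml_update c a y (-1)]; ring
    have hs : ∀ t : ℝ, (t = 1 ∨ t = -1) → |ml c (Function.update y a t)| ≤ B := by
      intro t ht
      apply ih
      · intro e he
        rw [Function.update_of_ne (by rintro rfl; exact ha he)]
        exact h1 e (Finset.mem_insert_of_mem he)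
      · intro e he
        by_cases hea : e = a
        · subst hea; rw [Function.update_self]; exact ht
        · rw [Function.update_of_ne hea]
          exact h2 e (by simp [hea, he])
    have hya := abs_le.1 (h1 a (Finset.mem_insert_self a A))
    have hp : 0 ≤ (1 + y a) / 2 := by linarith
    have hq : 0 ≤ (1 - y a) / 2 := by linarith
    rw [e1]
    calc |(1 + y a) / 2 * ml c (Function.update y a 1) + (1 - y a) / 2 * ml c (Function.update y a (-1))|
        ≤ |(1 + y a) / 2 * ml c (Function.update y a 1)|
          + |(1 - y a) / 2 * ml c (Function.update y a (-1))| := abs_add_le _ _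
      _ = (1 + y a) / 2 * |ml c (Function.update y a 1)|
          + (1 - y a) / 2 * |ml c (Function.update y a (-1))| := by
            rw [abs_mul, abs_mul, abs_of_nonneg hp, abs_of_nonneg hq]
      _ ≤ (1 + y a) / 2 * B + (1 - y a) / 2 * B :=
            add_le_add (mul_le_mul_of_nonneg_left (hs 1 (Or.inl rfl)) hp)
              (mul_le_mul_of_nonneg_left (hs (-1) (Or.inr rfl)) hq)
      _ = B := by ring

lemma abs_ml_le (c : Finset E → ℝ) (B : ℝ) (hB : ∀ y, IsSgn y → |ml c y| ≤ B)
    (y : E → ℝ) (hy : ∀ e, |y e| ≤ 1) : |ml c y| ≤ B :=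
  abs_ml_le_of_mem c B hB Finset.univ y (fun e _ => hy e) (fun e he => absurd (Finset.mem_univ e) he)

/-- The pointwise Markov bound. -/
lemma markov_pt (c : Finset E → ℝ) (d : ℕ) (hc : ∀ S, d < S.card → c S = 0) (B : ℝ)
    (hB : ∀ y, IsSgn y → |ml c y| ≤ B) (y : E → ℝ) (hy : IsSgn y) (A : Finset E) :
    |∑ e ∈ A, y e * dl c e y| ≤ (d : ℝ) ^ 2 * B := by
  let Q : ℝ[X] := ∑ S : Finset E, C (c S * ∏ e ∈ S, y e) * X ^ (S ∩ A).card
  have hQd : Q.natDegree ≤ d := by
    refine natDegree_sum_le_of_forall_le _ _ fun S _ => ?_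
    by_cases hS : d < S.card
    · rw [hc S hS]; simp
    · push Not at hS
      refine (natDegree_C_mul_X_pow_le _ _).trans ?_
      exact (Finset.card_le_card Finset.inter_subset_left).trans hS
  have hQe : ∀ t : ℝ, Q.eval t = ml c (fun e => if e ∈ A then t * y e else y e) := by
    intro t
    unfold ml
    simp only [Q, eval_finsetSum, eval_mul, eval_C, eval_pow, eval_X]
    refine Finset.sum_congr rfl fun S _ => ?_
    have : ∏ e ∈ S, (if e ∈ A then t * y e else y e) = (∏ e ∈ S, y e) * t ^ (S ∩ A).card := by
      have h1 : ∀ e ∈ S, (if e ∈ A then t * y e else y e) = y e * (if e ∈ A then t else 1) := by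
        intro e _; split_ifs <;> ring
      rw [Finset.prod_congr rfl h1, Finset.prod_mul_distrib]
      congr 1
      rw [Finset.prod_ite, Finset.prod_const_one, mul_one, Finset.prod_const,
        Finset.filter_mem_eq_inter]
    rw [this]; ring
  have hQb : ∀ t ∈ Set.Icc (-1 : ℝ) 1, |Q.eval t| ≤ B := by
    intro t ht
    rw [hQe]
    apply abs_ml_le c B hB
    intro e
    have hye : |y e| = 1 := by rcases hy e with h | h <;> rw [h] <;> norm_num
    split_ifs
    · rw [abs_mul, hye, mul_one, abs_le]; exact ⟨ht.1, ht.2⟩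
    · rw [hye]
  have hQ' : (derivative Q).eval 1 = ∑ e ∈ A, y e * dl c e y := by
    simp only [Q, derivative_sum, derivative_mul, derivative_C, derivative_X_pow, zero_mul,
      zero_add, eval_finsetSum, eval_mul, eval_C, eval_pow, eval_X, one_pow, mul_one]
    have h1 : ∀ e, y e * dl c e y = ∑ S : Finset E, if e ∈ S then c S * ∏ e ∈ S, y e else 0 := by
      intro e
      unfold dl
      rw [Finset.mul_sum]
      refine Finset.sum_congr rfl fun S _ => ?_
      split_ifs with h
      · rw [← Finset.mul_prod_erase S _ h]; ring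
      · simp
    simp_rw [h1]
    rw [Finset.sum_comm]
    refine Finset.sum_congr rfl fun S _ => ?_
    rw [← Finset.sum_filter, Finset.sum_const, nsmul_eq_mul, mul_comm]
    congr 2
    rw [Finset.filter_mem_eq_inter, Finset.inter_comm]
    try simp
  rw [← hQ']
  exact markov_end hQd hQb

end Pool.Agent.H722R2.AA
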