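import Pool.Agent.H722R2.AA.Cube

/-!
# Averages over independent labels are polynomials in the parameter
-/

set_option autoImplicit false

namespace Pool.Agent.H722R2.AA

open Finset Polynomial

variable {V L : Type*} [Fintype V] [DecidableEq V] [Fintype L] [DecidableEq L]

/-- The average of `G` with respect to the product weight `ω`. -/
noncomputable def EP (ω : V → L → ℝ[X]) (G : (V → L) → ℝ) : ℝ[X] :=
  ∑ T : V → L, C (G T) * ∏ w, ω w (T w)

lemma EP_eval (ω : V → L → ℝ[X]) (G : (V → L) → ℝ) (t : ℝ) :
    (EP ω G).eval t = ∑ T : V → L, G T * ∏ w, (ω w (T w)).eval t := by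
  unfold EP
  simp only [eval_finsetSum, eval_mul, eval_C, eval_prod]

lemma EP_sum {ι : Type*} (I : Finset ι) (ω : V → L → ℝ[X]) (G : ι → (V → L) → ℝ) :
    EP ω (fun T => ∑ i ∈ I, G i T) = ∑ i ∈ I, EP ω (G i) := by
  unfold EP
  rw [Finset.sum_comm]
  refine Finset.sum_congr rfl fun T _ => ?_
  rw [map_sum, Finset.sum_mul]

lemma junta_expand [Inhabited L] (G : (V → L) → ℝ) (U : Finset V)
    (hG : ∀ T T' : V → L, (∀ w ∈ U, T w = T' w) → G T = G T') (T : V → L) :
    G T = ∑ τ ∈ Fintype.piFinset (fun w => if w ∈ U then (Finset.univ : Finset L) else {default}),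
      G τ * ∏ w, (if w ∈ U then (if T w = τ w then (1 : ℝ) else 0) else 1) := by
  classical
  rw [Finset.sum_eq_single (fun w => if w ∈ U then T w else default)]
  · rw [Finset.prod_eq_one, mul_one]
    · apply hG
      intro w hw
      rw [if_pos hw]
    · intro w _
      split_ifs with h1 h2
      · rfl
      · exact absurd (by simp [h1]) h2
      · rfl
  · intro τ hτ hne
    rw [Fintype.mem_piFinset] at hτ
    have : ∃ w ∈ U, T w ≠ τ w := by
      by_contra hcon
      push Not at hcon
      apply hne
      funext w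
      by_cases hw : w ∈ U
      · rw [if_pos hw, hcon w hw]
      · have := hτ w
        rw [if_neg hw] at this ⊢
        simpa using this
    obtain ⟨w, hw, hTw⟩ := this
    rw [Finset.prod_eq_zero (Finset.mem_univ w), mul_zero]
    rw [if_pos hw, if_neg hTw]
  · intro h
    exfalso
    apply h
    rw [Fintype.mem_piFinset]
    intro w
    by_cases hw : w ∈ U
    · simp [hw]
    · simp [hw]

lemma EP_natDegree_le [Inhabited L] (ω : V → L → ℝ[X]) (hω1 : ∀ w, ∑ l, ω w l = 1)
    (hωd : ∀ w l, (ω w l).natDegree ≤ 1) (G : (V → L) → ℝ) (U : Finset V)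
    (hG : ∀ T T' : V → L, (∀ w ∈ U, T w = T' w) → G T = G T') :
    (EP ω G).natDegree ≤ U.card := by
  classical
  have h1 : EP ω G = ∑ τ ∈ Fintype.piFinset
      (fun w => if w ∈ U then (Finset.univ : Finset L) else {default}),
      C (G τ) * ∏ w ∈ U, ω w (τ w) := by
    have h2 : ∀ T : V → L, C (G T) * ∏ w, ω w (T w) = ∑ τ ∈ Fintype.piFinset
        (fun w => if w ∈ U then (Finset.univ : Finset L) else {default}),
        C (G τ) * ∏ w, (ω w (T w) * (if w ∈ U then (if T w = τ w then (1 : ℝ[X]) else 0) else 1)) := by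
      intro T
      rw [junta_expand G U hG T, map_sum, Finset.sum_mul]
      refine Finset.sum_congr rfl fun τ _ => ?_
      rw [map_mul, map_prod, Finset.prod_mul_distrib, mul_assoc, mul_comm (∏ w, C _)]
      congr 2
      refine Finset.prod_congr rfl fun w _ => ?_
      split_ifs <;> simp
    unfold EP
    rw [Finset.sum_congr rfl (fun T _ => h2 T), Finset.sum_comm]
    refine Finset.sum_congr rfl fun τ _ => ?_
    rw [← Finset.mul_sum]
    congr 1
    have h3 : ∑ T : V → L, ∏ w, (ω w (T w) * (if w ∈ U then (if T w = τ w then (1 : ℝ[X]) else 0)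
        else 1)) = ∏ w, ∑ l, (ω w l * (if w ∈ U then (if l = τ w then (1 : ℝ[X]) else 0) else 1)) := by
      rw [Finset.prod_univ_sum, Fintype.piFinset_univ]
    rw [h3]
    rw [← Finset.prod_subset (Finset.subset_univ U)]
    · refine Finset.prod_congr rfl fun w hw => ?_
      rw [Finset.sum_eq_single (τ w)]
      · simp [hw]
      · intro l _ hl; simp [hw, hl]
      · intro h; exact absurd (Finset.mem_univ _) h
    · intro w _ hw
      simp only [hw, if_false, mul_one]
      exact hω1 w
  rw [h1]
  refine natDegree_sum_le_of_forall_le _ _ fun τ _ => ?_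
  refine (natDegree_C_mul_le _ _).trans ?_
  refine (natDegree_prod_le _ _).trans ?_
  calc ∑ w ∈ U, (ω w (τ w)).natDegree ≤ ∑ _w ∈ U, 1 := Finset.sum_le_sum fun w _ => hωd w _
    _ = U.card := by simp

end Pool.Agent.H722R2.AA
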