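import Pool.Agent.H722R2.AA.Weight

/-!
# Fourier analysis on the cube and the final assembly
-/

set_option autoImplicit false
set_option linter.unusedSectionVars false

namespace Pool.Agent.H722R2.AA

open Finset Polynomial

section Fourier

variable {E : Type*} [Fintype E] [DecidableEq E]

/-- the sign vector as a real vector -/
def sg (x : E → ℤˣ) (e : E) : ℝ := ((x e : ℤ) : ℝ)

lemma sg_cases (x : E → ℤˣ) (e : E) : sg x e = 1 ∨ sg x e = -1 := by
  unfold sg
  rcases Int.units_eq_one_or (x e) with h | h <;> rw [h] <;> simp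

lemma sg_isSgn (x : E → ℤˣ) : IsSgn (sg x) := sg_cases x

lemma sg_mul_self (x : E → ℤˣ) (e : E) : sg x e * sg x e = 1 := by
  rcases sg_cases x e with h | h <;> rw [h] <;> norm_num

lemma exists_sg (y : E → ℝ) (hy : IsSgn y) : ∃ x : E → ℤˣ, sg x = y := by
  refine ⟨fun e => if y e = 1 then 1 else -1, ?_⟩
  funext e
  unfold sg
  rcases hy e with h | h
  · simp [h]
  · have h2 : ¬ (y e = 1) := by rw [h]; norm_num
    simp [h]
    norm_num

/-- Fourier coefficients -/
noncomputable def fc (f : (E → ℤˣ) → ℝ) (S : Finset E) : ℝ :=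
  (∑ x : E → ℤˣ, f x * ∏ i ∈ S, sg x i) / (2 : ℝ) ^ Fintype.card E

lemma sum_prod_sg (S : Finset E) :
    ∑ x : E → ℤˣ, ∏ i ∈ S, sg x i = if S = ∅ then (2 : ℝ) ^ Fintype.card E else 0 := by
  have h1 : ∀ x : E → ℤˣ, ∏ i ∈ S, sg x i = ∏ i, (if i ∈ S then ((x i : ℤ) : ℝ) else 1) := by
    intro x
    rw [Finset.prod_ite_mem, Finset.univ_inter]; rfl
  have h2 : ∑ x : E → ℤˣ, ∏ i, (if i ∈ S then ((x i : ℤ) : ℝ) else 1)
      = ∏ i, ∑ u : ℤˣ, (if i ∈ S then ((u : ℤ) : ℝ) else 1) := by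
    rw [Finset.prod_univ_sum, Fintype.piFinset_univ]
  rw [Finset.sum_congr rfl (fun x _ => h1 x), h2]
  split_ifs with hS
  · subst hS
    simp
  · obtain ⟨i, hi⟩ := Finset.nonempty_iff_ne_empty.2 hS
    apply Finset.prod_eq_zero (Finset.mem_univ i)
    simp [hi]

lemma prod_sg_mul (x : E → ℤˣ) (S T : Finset E) :
    (∏ i ∈ S, sg x i) * ∏ i ∈ T, sg x i = ∏ i ∈ symmDiff S T, sg x i := by
  have h1 : ∀ U : Finset E, ∏ i ∈ U, sg x i = ∏ i, (if i ∈ U then sg x i else 1) := by
    intro U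
    rw [Finset.prod_ite_mem, Finset.univ_inter]
  rw [h1, h1, h1, ← Finset.prod_mul_distrib]
  refine Finset.prod_congr rfl fun i _ => ?_
  by_cases hS : i ∈ S <;> by_cases hT : i ∈ T <;> simp [hS, hT, Finset.mem_symmDiff, sg_mul_self]

lemma sum_ml_sq (c : Finset E → ℝ) :
    ∑ x : E → ℤˣ, ml c (sg x) ^ 2 = (2 : ℝ) ^ Fintype.card E * ∑ S : Finset E, c S ^ 2 := by
  have h1 : ∀ x : E → ℤˣ, ml c (sg x) ^ 2 = ∑ S : Finset E, ∑ T : Finset E,
      c S * c T * ∏ i ∈ symmDiff S T, sg x i := by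
    intro x
    unfold ml
    rw [sq, Finset.sum_mul_sum]
    refine Finset.sum_congr rfl fun S _ => Finset.sum_congr rfl fun T _ => ?_
    rw [← prod_sg_mul]; ring
  rw [Finset.sum_congr rfl (fun x _ => h1 x), Finset.sum_comm, Finset.mul_sum]
  refine Finset.sum_congr rfl fun S _ => ?_
  rw [Finset.sum_comm]
  rw [Finset.sum_eq_single S]
  · rw [← Finset.mul_sum, sum_prod_sg]; simp; ring
  · intro T _ hT
    rw [← Finset.mul_sum, sum_prod_sg, if_neg, mul_zero]
    intro h
    exact hT (symmDiff_eq_bot.1 h).symm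
  · intro h; exact absurd (Finset.mem_univ _) h

lemma sum_ml (c : Finset E → ℝ) :
    ∑ x : E → ℤˣ, ml c (sg x) = (2 : ℝ) ^ Fintype.card E * c ∅ := by
  unfold ml
  rw [Finset.sum_comm, Finset.sum_eq_single ∅]
  · rw [← Finset.mul_sum, sum_prod_sg]; simp; ring
  · intro S _ hS
    rw [← Finset.mul_sum, sum_prod_sg, if_neg hS, mul_zero]
  · intro h; exact absurd (Finset.mem_univ _) h

lemma ml_fc (f : (E → ℤˣ) → ℝ) (x : E → ℤˣ) : ml (fc f) (sg x) = f x := by
  have hpos : (2 : ℝ) ^ Fintype.card E ≠ 0 := by positivity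
  unfold ml fc
  have h1 : ∀ S : Finset E, (∑ z : E → ℤˣ, f z * ∏ i ∈ S, sg z i) / (2 : ℝ) ^ Fintype.card E
      * ∏ e ∈ S, sg x e = ∑ z : E → ℤˣ, f z / (2 : ℝ) ^ Fintype.card E *
        ∏ i ∈ S, (sg z i * sg x i) := by
    intro S
    rw [Finset.sum_div, Finset.sum_mul]
    refine Finset.sum_congr rfl fun z _ => ?_
    rw [Finset.prod_mul_distrib]; ring
  rw [Finset.sum_congr rfl (fun S _ => h1 S), Finset.sum_comm, Finset.sum_eq_single x]
  · rw [← Finset.mul_sum]
    have : ∀ S : Finset E, ∏ i ∈ S, (sg x i * sg x i) = 1 :=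
      fun S => Finset.prod_eq_one fun i _ => sg_mul_self x i
    simp only [this]
    rw [Finset.sum_const, Finset.card_univ, Fintype.card_finset]
    simp only [nsmul_eq_mul, mul_one]
    push_cast
    field_simp
  · intro z _ hz
    rw [← Finset.mul_sum, ← Finset.powerset_univ, ← Finset.prod_one_add]
    have : ∃ i, z i ≠ x i := by
      by_contra hcon
      push Not at hcon
      exact hz (funext hcon)
    obtain ⟨i, hi⟩ := this
    rw [Finset.prod_eq_zero (Finset.mem_univ i), mul_zero]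
    unfold sg
    rcases Int.units_eq_one_or (z i) with h | h <;> rcases Int.units_eq_one_or (x i) with h' | h'
    · exact absurd (h.trans h'.symm) hi
    · rw [h, h']; norm_num
    · rw [h, h']; norm_num
    · exact absurd (h.trans h'.symm) hi
  · intro h; exact absurd (Finset.mem_univ _) h

lemma sg_update (x : E → ℤˣ) (a : E) (u : ℤˣ) :
    sg (Function.update x a u) = Function.update (sg x) a ((u : ℤ) : ℝ) := by
  funext e
  unfold sg
  by_cases h : e = a
  · subst h; simp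
  · rw [Function.update_of_ne h, Function.update_of_ne h]

lemma dl_fc (f : (E → ℤˣ) → ℝ) (a : E) (x : E → ℤˣ) :
    dl (fc f) a (sg x) = (f (Function.update x a 1) - f (Function.update x a (-1))) / 2 := by
  rw [dl_eq, ← ml_fc f (Function.update x a 1), ← ml_fc f (Function.update x a (-1)),
    sg_update, sg_update]
  norm_num

/-- Sum of the squares of the derivative. -/
lemma sum_dl_sq (c : Finset E → ℝ) (a : E) :
    ∑ x : E → ℤˣ, dl c a (sg x) ^ 2
      = (2 : ℝ) ^ Fintype.card E * ∑ S : Finset E, if a ∈ S then c S ^ 2 else 0 := by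
  have h1 : ∀ x : E → ℤˣ, dl c a (sg x) = sg x a * ml (fun S => if a ∈ S then c S else 0) (sg x) := by
    intro x
    unfold dl ml
    rw [Finset.mul_sum]
    refine Finset.sum_congr rfl fun S _ => ?_
    split_ifs with h
    · rw [← Finset.mul_prod_erase S _ h]
      have := sg_mul_self x a
      simp only [h, if_true]
      calc c S * ∏ e ∈ S.erase a, sg x e = (sg x a * sg x a) * (c S * ∏ e ∈ S.erase a, sg x e) := by
            rw [this, one_mul]
        _ = _ := by ring
    · simp only [h, if_false]; ring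
  have h2 : ∀ x : E → ℤˣ, dl c a (sg x) ^ 2
      = ml (fun S => if a ∈ S then c S else 0) (sg x) ^ 2 := by
    intro x
    rw [h1, mul_pow, sq (sg x a), sg_mul_self, one_mul]
  rw [Finset.sum_congr rfl (fun x _ => h2 x), sum_ml_sq]
  congr 1
  refine Finset.sum_congr rfl fun S _ => ?_
  split_ifs <;> simp

/-- Poincare inequality. -/
lemma var_le (c : Finset E → ℝ) :
    (∑ x : E → ℤˣ, ml c (sg x) ^ 2) / (2 : ℝ) ^ Fintype.card E
      - ((∑ x : E → ℤˣ, ml c (sg x)) / (2 : ℝ) ^ Fintype.card E) ^ 2 ≤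
    ∑ a : E, (∑ x : E → ℤˣ, dl c a (sg x) ^ 2) / (2 : ℝ) ^ Fintype.card E := by
  have hpos : (2 : ℝ) ^ Fintype.card E ≠ 0 := by positivity
  rw [sum_ml_sq, sum_ml]
  simp only [sum_dl_sq]
  rw [mul_div_cancel_left₀ _ hpos, mul_div_cancel_left₀ _ hpos]
  have h1 : ∀ a : E, (2 : ℝ) ^ Fintype.card E * (∑ S : Finset E, if a ∈ S then c S ^ 2 else 0) /
      (2 : ℝ) ^ Fintype.card E = ∑ S : Finset E, if a ∈ S then c S ^ 2 else 0 := by
    intro a; rw [mul_div_cancel_left₀ _ hpos]
  rw [Finset.sum_congr rfl (fun a _ => h1 a), Finset.sum_comm]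
  have h2 : ∀ S : Finset E, (∑ a : E, if a ∈ S then c S ^ 2 else 0) = S.card * c S ^ 2 := by
    intro S
    rw [Finset.sum_ite_mem, Finset.univ_inter, Finset.sum_const, nsmul_eq_mul]
  rw [Finset.sum_congr rfl (fun S _ => h2 S)]
  rw [← Finset.add_sum_erase Finset.univ (fun S : Finset E => c S ^ 2) (Finset.mem_univ ∅),
    ← Finset.add_sum_erase Finset.univ (fun S : Finset E => (S.card : ℝ) * c S ^ 2)
      (Finset.mem_univ ∅)]
  simp only [Finset.card_empty, Nat.cast_zero, zero_mul, zero_add]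
  rw [add_sub_cancel_left]
  refine Finset.sum_le_sum fun S hS => ?_
  have h3 : 1 ≤ S.card := Finset.card_pos.2
    (Finset.nonempty_iff_ne_empty.2 (Finset.ne_of_mem_erase hS))
  have h4 : (1 : ℝ) ≤ S.card := by exact_mod_cast h3
  nlinarith [sq_nonneg (c S)]

lemma sum_biUnion_le (R : Finset E) (O : E → Finset E) (I : E → ℝ) (hI : ∀ e, 0 ≤ I e) :
    ∑ e ∈ R.biUnion O, I e ≤ ∑ e₀ ∈ R, ∑ e ∈ O e₀, I e := by
  induction R using Finset.induction_on with
  | empty => simp
  | insert a R ha ih =>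
    rw [Finset.biUnion_insert, Finset.sum_insert ha]
    have h1 : ∑ e ∈ O a ∪ R.biUnion O, I e ≤ ∑ e ∈ O a, I e + ∑ e ∈ R.biUnion O, I e := by
      rw [← Finset.sum_union_inter]
      have : 0 ≤ ∑ e ∈ O a ∩ R.biUnion O, I e := Finset.sum_nonneg fun e _ => hI e
      linarith
    linarith

/-- L1 norm versus L2 norm. -/
lemma l1_le_l2 (g : (E → ℤˣ) → ℝ) :
    (∑ x, |g x|) / (2 : ℝ) ^ Fintype.card E ≤
      Real.sqrt ((∑ x, g x ^ 2) / (2 : ℝ) ^ Fintype.card E) := by
  apply Real.le_sqrt_of_sq_le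
  have hpos : (0 : ℝ) < (2 : ℝ) ^ Fintype.card E := by positivity
  have h1 := sq_sum_le_card_mul_sum_sq (s := (Finset.univ : Finset (E → ℤˣ))) (f := fun x => |g x|)
  have h2 : ((Finset.univ : Finset (E → ℤˣ)).card : ℝ) = (2 : ℝ) ^ Fintype.card E := by
    rw [Finset.card_univ, Fintype.card_fun]
    simp
  rw [h2] at h1
  rw [div_pow, div_le_div_iff₀ (by positivity) hpos]
  simp only [sq_abs] at h1
  calc (∑ x, |g x|) ^ 2 * 2 ^ Fintype.card E ≤ (2 ^ Fintype.card E * ∑ x, g x ^ 2) *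
        2 ^ Fintype.card E := mul_le_mul_of_nonneg_right h1 hpos.le
    _ = (∑ x, g x ^ 2) * (2 ^ Fintype.card E) ^ 2 := by ring

end Fourier

variable {V E : Type*} [Fintype V] [DecidableEq V] [Fintype E] [DecidableEq E]
  [MulAction (Equiv.Perm V) E]

open Classical in
/-- The strong Aaronson-Ambainis inequality for functions with a large symmetry group. -/
theorem strong_AA {K : Type*} (supp : E → Finset V) (r : ℕ)
    (hcard : ∀ e, (supp e).card ≤ r)
    (hfix : ∀ (π : Equiv.Perm V) (e : E), (∀ v ∈ supp e, π v = v) → π • e = e)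
    (hequi : ∀ (π : Equiv.Perm V) (e : E), supp (π • e) = (supp e).image π)
    (col : V → K) (d : ℕ) (f : (E → ℤˣ) → ℝ)
    (hdeg : ∀ S : Finset E, d < S.card → ∑ x : E → ℤˣ, f x * ∏ i ∈ S, ((x i : ℤ) : ℝ) = 0)
    (hinv : ∀ π : Equiv.Perm V, (∀ v, col (π v) = col v) →
      ∀ x : E → ℤˣ, f (fun e => x (π • e)) = f x)
    (R : Finset E)
    (hR : ∀ e, (∃ x : E → ℤˣ, f (Function.update x e 1) ≠ f (Function.update x e (-1))) →
      ∃ e₀ ∈ R, ∃ π : Equiv.Perm V, (∀ v, col (π v) = col v) ∧ π • e₀ = e) :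
    (∑ x : E → ℤˣ, f x ^ 2) / (2 : ℝ) ^ Fintype.card E
        - ((∑ x : E → ℤˣ, f x) / (2 : ℝ) ^ Fintype.card E) ^ 2 ≤
      (⨆ x : E → ℤˣ, |f x|) *
        (2 * (((r : ℝ) + 1) * (4 * (r : ℝ) ^ 2 + 1)) ^ r * R.card * (d : ℝ) ^ (2 * r + 2)) *
        ⨆ e : E, Real.sqrt ((∑ x : E → ℤˣ,
          ((f (Function.update x e 1) - f (Function.update x e (-1))) / 2) ^ 2)
            / (2 : ℝ) ^ Fintype.card E) := by
  have hs : IsSupport supp := ⟨hfix, hequi⟩
  set B : ℝ := ⨆ x : E → ℤˣ, |f x| with hBdef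
  have hBdd : BddAbove (Set.range fun x : E → ℤˣ => |f x|) := Set.finite_range _ |>.bddAbove
  have hBx : ∀ x, |f x| ≤ B := fun x => le_ciSup hBdd x
  have hB0 : 0 ≤ B := (abs_nonneg _).trans (hBx (fun _ => 1))
  set c := fc f with hcdef
  have hc : ∀ S, d < S.card → c S = 0 := by
    intro S hS
    have := hdeg S hS
    unfold c fc sg
    rw [this, zero_div]
  have hml : ∀ x, ml c (sg x) = f x := ml_fc f
  have hdl : ∀ a x, dl c a (sg x) = (f (Function.update x a 1) - f (Function.update x a (-1))) / 2 :=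
    dl_fc f
  have hBc : ∀ y, IsSgn y → |ml c y| ≤ B := by
    intro y hy
    obtain ⟨x, rfl⟩ := exists_sg y hy
    rw [hml]; exact hBx x
  have hInv : Inv col c := by
    intro π hπ y hy
    obtain ⟨x, rfl⟩ := exists_sg y hy
    rw [hml x, ← hinv π hπ x, ← hml]
    rfl
  set N : ℝ := (2 : ℝ) ^ Fintype.card E with hN
  have hN0 : 0 < N := by positivity
  set I : E → ℝ := fun e => (∑ x : E → ℤˣ,
          ((f (Function.update x e 1) - f (Function.update x e (-1))) / 2) ^ 2) / N with hI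
  set m : ℝ := ⨆ e : E, Real.sqrt (I e) with hm
  have hmBdd : BddAbove (Set.range fun e : E => Real.sqrt (I e)) := Set.finite_range _ |>.bddAbove
  have hmI : ∀ e, Real.sqrt (I e) ≤ m := fun e => le_ciSup hmBdd e
  have hm0 : 0 ≤ m := Real.iSup_nonneg fun e => Real.sqrt_nonneg _
  -- the orbits
  let O : E → Finset E := fun e => univ.filter fun e' =>
    ∃ π : Equiv.Perm V, (∀ v, col (π v) = col v) ∧ π • e = e'
  have hOself : ∀ e, e ∈ O e := fun e => by
    simp only [O, Finset.mem_filter, Finset.mem_univ, true_and]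
    exact ⟨1, fun v => rfl, one_smul _ _⟩
  have hOeq : ∀ e e', e' ∈ O e → O e' = O e := by
    intro e e' h
    simp only [O, Finset.mem_filter, Finset.mem_univ, true_and] at h
    obtain ⟨π, hπ, rfl⟩ := h
    ext e''
    simp only [O, Finset.mem_filter, Finset.mem_univ, true_and]
    constructor
    · rintro ⟨σ, hσ, rfl⟩
      exact ⟨σ * π, fun v => by rw [Equiv.Perm.mul_apply, hσ, hπ], mul_smul _ _ _⟩
    · rintro ⟨σ, hσ, rfl⟩
      refine ⟨σ * π⁻¹, fun v => ?_, by rw [smul_smul, inv_mul_cancel_right]⟩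
      rw [Equiv.Perm.mul_apply, hσ]
      have := hπ (π⁻¹ v)
      rw [← this]
      simp
  set Cst : ℝ := 2 * (((r : ℝ) + 1) * (4 * ((r : ℝ) * d) ^ 2 + 1)) ^ r * ((d : ℝ) ^ 2 * B) with hCst
  have hCst0 : 0 ≤ Cst := by positivity
  have hbound : ∀ e x, |dl c e (sg x)| ≤ Cst / (O e).card := by
    intro e x
    have hcardpos : (0 : ℝ) < (O e).card := by
      exact_mod_cast Finset.card_pos.2 ⟨e, hOself e⟩
    rw [le_div_iff₀ hcardpos, mul_comm]
    refine orbit_bound hs hc hInv hBc r hcard e (O e) ?_ (sg x) (sg_isSgn x)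
    intro e' he'
    simpa only [O, Finset.mem_filter, Finset.mem_univ, true_and] using he'
  -- influence of a single coordinate
  have hIe : ∀ e, I e ≤ Cst / (O e).card * m := by
    intro e
    have h1 : I e ≤ Cst / (O e).card * ((∑ x, |dl c e (sg x)|) / N) := by
      rw [hI]
      simp only
      rw [← mul_div_assoc, Finset.mul_sum]
      apply div_le_div_of_nonneg_right _ hN0.le
      refine Finset.sum_le_sum fun x _ => ?_
      rw [← hdl e x, ← sq_abs, sq]
      exact mul_le_mul_of_nonneg_right (hbound e x) (abs_nonneg _)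
    refine h1.trans ?_
    apply mul_le_mul_of_nonneg_left _ (by positivity)
    refine (l1_le_l2 (fun x => dl c e (sg x))).trans ?_
    have : (∑ x : E → ℤˣ, dl c e (sg x) ^ 2) / (2 : ℝ) ^ Fintype.card E = I e := by
      rw [hI]
      simp only
      congr 1
      exact Finset.sum_congr rfl fun x _ => by rw [hdl e x]
    rw [this]
    exact hmI e
  have hI0 : ∀ e, e ∉ R.biUnion O → I e = 0 := by
    intro e he
    by_contra hcon
    apply he
    have : ∃ x : E → ℤˣ, f (Function.update x e 1) ≠ f (Function.update x e (-1)) := by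
      by_contra hcon2
      push Not at hcon2
      apply hcon
      rw [hI]
      simp [hcon2]
    obtain ⟨e₀, he₀, π, hπ, hπe⟩ := hR e this
    rw [Finset.mem_biUnion]
    refine ⟨e₀, he₀, ?_⟩
    simp only [O, Finset.mem_filter, Finset.mem_univ, true_and]
    exact ⟨π, hπ, hπe⟩
  have hsum : ∑ e : E, I e ≤ R.card * (Cst * m) := by
    have h1 : ∑ e : E, I e = ∑ e ∈ R.biUnion O, I e := by
      symm
      apply Finset.sum_subset (Finset.subset_univ _)
      intro e _ he
      exact hI0 e he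
    have hInn : ∀ e, 0 ≤ I e := by
      intro e; rw [hI]; positivity
    rw [h1]
    calc ∑ e ∈ R.biUnion O, I e ≤ ∑ e₀ ∈ R, ∑ e ∈ O e₀, I e :=
          sum_biUnion_le R O I hInn
      _ ≤ ∑ e₀ ∈ R, Cst * m := by
          refine Finset.sum_le_sum fun e₀ _ => ?_
          calc ∑ e ∈ O e₀, I e ≤ ∑ e ∈ O e₀, Cst / (O e₀).card * m := by
                refine Finset.sum_le_sum fun e he => ?_
                rw [← hOeq e₀ e he]
                exact hIe e
            _ = Cst * m := by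
                rw [Finset.sum_const, nsmul_eq_mul]
                have : ((O e₀).card : ℝ) ≠ 0 := by
                  exact_mod_cast (Finset.card_pos.2 ⟨e₀, hOself e₀⟩).ne'
                field_simp
      _ = R.card * (Cst * m) := by rw [Finset.sum_const, nsmul_eq_mul]
  have hvar := var_le c
  simp only [hml, hdl] at hvar
  refine hvar.trans ?_
  refine hsum.trans ?_
  have hCle : Cst ≤ 2 * (((r : ℝ) + 1) * (4 * (r : ℝ) ^ 2 + 1)) ^ r * (d : ℝ) ^ (2 * r + 2) * B := by
    rw [hCst]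
    rcases Nat.eq_zero_or_pos d with hd0 | hd0
    · subst hd0; simp
    · have hd1 : (1 : ℝ) ≤ d := by exact_mod_cast hd0
      have hd2 : (1 : ℝ) ≤ (d : ℝ) ^ 2 := one_le_pow₀ hd1
      have h1 : ((r : ℝ) + 1) * (4 * ((r : ℝ) * d) ^ 2 + 1) ≤
          (((r : ℝ) + 1) * (4 * (r : ℝ) ^ 2 + 1)) * (d : ℝ) ^ 2 := by
        rw [mul_assoc]
        apply mul_le_mul_of_nonneg_left _ (by positivity)
        nlinarith
      have h2 : (((r : ℝ) + 1) * (4 * ((r : ℝ) * d) ^ 2 + 1)) ^ r ≤
          (((r : ℝ) + 1) * (4 * (r : ℝ) ^ 2 + 1)) ^ r * (d : ℝ) ^ (2 * r) := by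
        calc _ ≤ ((((r : ℝ) + 1) * (4 * (r : ℝ) ^ 2 + 1)) * (d : ℝ) ^ 2) ^ r :=
              pow_le_pow_left₀ (by positivity) h1 r
          _ = _ := by rw [mul_pow, ← pow_mul]
      calc 2 * (((r : ℝ) + 1) * (4 * ((r : ℝ) * d) ^ 2 + 1)) ^ r * ((d : ℝ) ^ 2 * B)
          ≤ 2 * ((((r : ℝ) + 1) * (4 * (r : ℝ) ^ 2 + 1)) ^ r * (d : ℝ) ^ (2 * r)) *
            ((d : ℝ) ^ 2 * B) := by
              apply mul_le_mul_of_nonneg_right _ (by positivity)
              linarith
        _ = _ := by rw [pow_add]; ring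
  calc (R.card : ℝ) * (Cst * m) ≤ R.card * ((2 * (((r : ℝ) + 1) * (4 * (r : ℝ) ^ 2 + 1)) ^ r *
        (d : ℝ) ^ (2 * r + 2) * B) * m) := by
        apply mul_le_mul_of_nonneg_left _ (by positivity)
        exact mul_le_mul_of_nonneg_right hCle hm0
    _ = _ := by ring

end Pool.Agent.H722R2.AA
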