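import Mathlib

/-!
# Chebyshev type bounds used for the Aaronson-Ambainis partial result
-/

set_option autoImplicit false

namespace Pool.Agent.H722R2.AA

open Finset Polynomial

/-- Growth of a bounded polynomial to the right of `[-1,1]` and its derivatives there. -/
lemma cheb_le {n k : ℕ} {P : ℝ[X]} {x B : ℝ} (hx : 1 ≤ x) (hP : P.natDegree ≤ n)
    (hB : 0 < B) (hb : ∀ t ∈ Set.Icc (-1 : ℝ) 1, |P.eval t| ≤ B) :
    |(derivative^[k] P).eval x| ≤ (derivative^[k] (Polynomial.Chebyshev.T ℝ (n : ℤ))).eval x * B := by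
  have key : ∀ s : ℝ, |s| = 1 →
      s * (derivative^[k] P).eval x ≤ (derivative^[k] (Polynomial.Chebyshev.T ℝ (n : ℤ))).eval x * B := by
    intro s hs
    have h := Polynomial.Chebyshev.eval_iterate_derivative_le_of_forall_abs_le_one
      (n := n) (P := C (s / B) * P) (k := k) (x := x) hx
      (by
        refine natDegree_le_iff_degree_le.1 ?_
        exact (natDegree_C_mul_le _ _).trans hP)
      (by
        intro t ht
        rw [eval_mul, eval_C, abs_mul, abs_div, hs, abs_of_pos hB]
        have := hb t ht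
        rw [one_div, inv_mul_le_iff₀ hB, mul_one]
        exact this)
    rw [iterate_derivative_C_mul, eval_mul, eval_C] at h
    have h2 : s / B * (derivative^[k] P).eval x * B = s * (derivative^[k] P).eval x := by
      field_simp
    rw [← h2]
    exact mul_le_mul_of_nonneg_right h hB.le
  rw [abs_le]
  constructor
  · have := key (-1) (by norm_num)
    linarith
  · have := key 1 (by norm_num)
    linarith

/-- Markov's inequality at the end point. -/
lemma markov_end {n : ℕ} {P : ℝ[X]} {B : ℝ} (hP : P.natDegree ≤ n)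
    (hb : ∀ t ∈ Set.Icc (-1 : ℝ) 1, |P.eval t| ≤ B) :
    |(derivative P).eval 1| ≤ (n : ℝ) ^ 2 * B := by
  have hB0 : 0 ≤ B := (abs_nonneg _).trans (hb 1 (by norm_num))
  have key : ∀ B' > B, |(derivative P).eval 1| ≤ (n : ℝ) ^ 2 * B' := by
    intro B' hB'
    have h := cheb_le (k := 1) (le_refl (1 : ℝ)) hP (lt_of_le_of_lt hB0 hB')
      (fun t ht => (hb t ht).trans hB'.le)
    have hT : (derivative^[1] (Polynomial.Chebyshev.T ℝ (n : ℤ))).eval 1 = (n : ℝ) ^ 2 := by
      have := Polynomial.Chebyshev.derivative_T_eval_one (R := ℝ) (n : ℤ)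
      simpa using this
    rw [hT] at h
    simpa using h
  by_contra hcon
  push Not at hcon
  rcases Nat.eq_zero_or_pos n with hn | hn
  · have := key (B + 1) (by linarith)
    rw [hn] at this hcon
    simp at this hcon
    exact hcon this
  · have hn' : (0 : ℝ) < (n : ℝ) ^ 2 := by positivity
    have h2 : B < |(derivative P).eval 1| / (n : ℝ) ^ 2 := by
      rw [lt_div_iff₀ hn']; linarith
    obtain ⟨B', h3, h4⟩ := exists_between h2
    have h5 := key B' h3
    rw [lt_div_iff₀ hn'] at h4
    linarith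

/-- Extrapolation to `0` of a polynomial that is bounded on `[a, b]`, `a = b / (4 n^2 + 1)`. -/
lemma extrapolate {n : ℕ} {P : ℝ[X]} {B b : ℝ} (hb0 : 0 < b) (hP : P.natDegree ≤ n)
    (hb : ∀ t ∈ Set.Icc (b / (4 * (n : ℝ) ^ 2 + 1)) b, |P.eval t| ≤ B) :
    |P.eval 0| ≤ 2 * B := by
  have hpos : (0 : ℝ) < 4 * (n : ℝ) ^ 2 + 1 := by positivity
  have hab : b / (4 * (n : ℝ) ^ 2 + 1) ≤ b := by
    rw [div_le_iff₀ hpos]
    nlinarith [sq_nonneg (n : ℝ)]
  have hB0 : 0 ≤ B := (abs_nonneg _).trans (hb b ⟨hab, le_rfl⟩)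
  rcases Nat.eq_zero_or_pos n with hn | hn
  · subst hn
    have hc : P.eval 0 = P.eval b := by
      rw [Polynomial.eq_C_of_natDegree_le_zero hP]; simp
    rw [hc]
    have := hb b ⟨hab, le_rfl⟩
    linarith
  · -- affine change of variables t = (a+b)/2 - (b-a)/2 * s
    have hn1 : (1 : ℝ) ≤ (n : ℝ) := by exact_mod_cast hn
    set a : ℝ := b / (4 * (n : ℝ) ^ 2 + 1) with ha
    have ha0 : 0 < a := by positivity
    have hlt : a < b := by
      rw [ha, div_lt_iff₀ hpos]
      have h3 : 0 < b * (4 * (n : ℝ) ^ 2) := by positivity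
      linarith
    have key : ∀ B' > B, |P.eval 0| ≤ 2 * B' := by
      intro B' hB'
      have hB'0 : 0 < B' := lt_of_le_of_lt hB0 hB'
      let Q : ℝ[X] := P.comp (C ((a + b) / 2) - C ((b - a) / 2) * X)
      have hQd : Q.natDegree ≤ n := by
        refine natDegree_comp_le.trans ?_
        calc P.natDegree * (C ((a + b) / 2) - C ((b - a) / 2) * X : ℝ[X]).natDegree
            ≤ n * 1 := Nat.mul_le_mul hP (by
              refine (natDegree_sub_le _ _).trans ?_
              refine max_le (by simp) ?_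
              exact (natDegree_C_mul_le _ _).trans (by simp))
          _ = n := mul_one n
      have hQe : ∀ s, Q.eval s = P.eval ((a + b) / 2 - (b - a) / 2 * s) := by
        intro s; simp [Q, eval_comp]
      have hQb : ∀ s ∈ Set.Icc (-1 : ℝ) 1, |Q.eval s| ≤ B' := by
        intro s hs
        rw [hQe]
        refine (hb _ ⟨?_, ?_⟩).trans hB'.le
        · nlinarith [hs.2]
        · nlinarith [hs.1]
      have hx1 : (1 : ℝ) ≤ (a + b) / (b - a) := by
        rw [le_div_iff₀ (by linarith)]; linarith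
      have h := cheb_le (k := 0) hx1 hQd hB'0 hQb
      simp only [Function.iterate_zero, id_eq] at h
      have hQ0 : Q.eval ((a + b) / (b - a)) = P.eval 0 := by
        rw [hQe]
        congr 1
        have : b - a ≠ 0 := by linarith
        field_simp
        ring
      rw [hQ0] at h
      -- bound T_n
      have hcosh : (a + b) / (b - a) ≤ Real.cosh (1 / (n : ℝ)) := by
        have e1 : (a + b) / (b - a) = 1 + 1 / (2 * (n : ℝ) ^ 2) := by
          rw [ha]
          have h4 : (4 * (n : ℝ) ^ 2 + 1) ≠ 0 := hpos.ne'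
          have h5 : b - b / (4 * (n : ℝ) ^ 2 + 1) = b * (4 * (n : ℝ) ^ 2) / (4 * (n : ℝ) ^ 2 + 1) := by
            field_simp; ring
          have h6 : b / (4 * (n : ℝ) ^ 2 + 1) + b = b * (4 * (n : ℝ) ^ 2 + 2) / (4 * (n : ℝ) ^ 2 + 1) := by
            field_simp; ring
          rw [h5, h6]
          field_simp
          ring
        rw [e1]
        have h7 := Real.cosh_sq (1 / (2 * (n : ℝ)))
        have h8 : Real.cosh (1 / (n : ℝ)) = 1 + 2 * Real.sinh (1 / (2 * (n : ℝ))) ^ 2 := by
          have : (1 / (n : ℝ)) = 2 * (1 / (2 * (n : ℝ))) := by field_simp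
          rw [this, Real.cosh_two_mul, h7]; ring
        rw [h8]
        have h9 : 1 / (2 * (n : ℝ)) ≤ Real.sinh (1 / (2 * (n : ℝ))) :=
          Real.self_le_sinh_iff.2 (by positivity)
        have h10 : (1 / (2 * (n : ℝ))) ^ 2 ≤ Real.sinh (1 / (2 * (n : ℝ))) ^ 2 := by
          apply pow_le_pow_left₀ (by positivity) h9
        have h11 : 1 / (2 * (n : ℝ) ^ 2) = 2 * (1 / (2 * (n : ℝ))) ^ 2 := by
          field_simp
          try norm_num
        rw [h11]
        linarith
      have hT : (Polynomial.Chebyshev.T ℝ (n : ℤ)).eval ((a + b) / (b - a)) ≤ 2 := by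
        obtain ⟨θ, hθ0, hθ⟩ : ∃ θ : ℝ, 0 ≤ θ ∧ Real.cosh θ = (a + b) / (b - a) :=
          ⟨Real.arcosh ((a + b) / (b - a)), Real.arcosh_nonneg hx1, Real.cosh_arcosh hx1⟩
        rw [← hθ, Polynomial.Chebyshev.T_real_cosh]
        rw [← hθ] at hcosh
        have hθ1 : θ ≤ 1 / n := by
          have := Real.cosh_le_cosh.1 hcosh
          rwa [abs_of_nonneg hθ0, abs_of_nonneg (by positivity)] at this
        have h12 : Real.cosh (((n : ℤ) : ℝ) * θ) ≤ Real.cosh 1 := by
          rw [Real.cosh_le_cosh]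
          rw [abs_of_nonneg (by positivity), abs_one]
          have : ((n : ℤ) : ℝ) * θ ≤ ((n : ℤ) : ℝ) * (1 / n) :=
            mul_le_mul_of_nonneg_left hθ1 (by positivity)
          have h13 : ((n : ℤ) : ℝ) * (1 / n) = 1 := by
            push_cast; field_simp
          linarith
        refine h12.trans ?_
        rw [Real.cosh_eq]
        have h14 := Real.exp_one_lt_d9
        have h15 : Real.exp (-1) ≤ 1 := Real.exp_le_one_iff.2 (by norm_num)
        linarith
      calc |P.eval 0| ≤ _ := h
        _ ≤ 2 * B' := mul_le_mul_of_nonneg_right hT hB'0.le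
    by_contra hcon
    push Not at hcon
    have := key ((B + |P.eval 0| / 2) / 2) (by linarith)
    linarith

end Pool.Agent.H722R2.AA
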