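import Pool.Agent.H722R2.AA.Clone

/-!
# The random labelling and the main derivative bound
-/

set_option autoImplicit false
set_option linter.unusedSectionVars false

namespace Pool.Agent.H722R2.AA

open Finset Polynomial

variable {V E : Type*} [Fintype V] [DecidableEq V] [Fintype E] [DecidableEq E]
  [MulAction (Equiv.Perm V) E] {K : Type*} [DecidableEq K]

/-- Number of elements of `s` with the colour of `w`. -/
def nc (col : V → K) (s : Finset V) (w : V) : ℕ := (s.filter fun u => col u = col w).card

/-- Real weights of the labels. -/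
noncomputable def rw' (col : V → K) (s : Finset V) (t : ℝ) (w : V) : Option V → ℝ
  | none => 1 - nc col s w * t
  | some u => if u ∈ s ∧ col u = col w then t else 0

lemma sum_rw' (col : V → K) (s : Finset V) (t : ℝ) (w : V) : ∑ l, rw' col s t w l = 1 := by
  rw [Fintype.sum_option]
  simp only [rw']
  rw [← Finset.sum_filter, Finset.sum_const, nsmul_eq_mul]
  have : (univ.filter fun u => u ∈ s ∧ col u = col w) = s.filter fun u => col u = col w := by
    ext u; simp
  rw [this]
  unfold nc
  ring

lemma rw'_nonneg (col : V → K) (s : Finset V) (t : ℝ) (r : ℕ) (hs : s.card ≤ r) (h0 : 0 ≤ t)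
    (h1 : t ≤ 1 / ((r : ℝ) + 1)) (w : V) (l : Option V) : 0 ≤ rw' col s t w l := by
  cases l with
  | none =>
    simp only [rw']
    have h2 : (nc col s w : ℝ) ≤ r := by
      have : nc col s w ≤ r := (Finset.card_filter_le _ _).trans hs
      exact_mod_cast this
    have h3 : (nc col s w : ℝ) * t ≤ r * (1 / ((r : ℝ) + 1)) :=
      mul_le_mul h2 h1 h0 (by positivity)
    have h4 : (r : ℝ) * (1 / ((r : ℝ) + 1)) ≤ 1 := by
      rw [mul_one_div, div_le_one (by positivity)]; linarith
    linarith
  | some u =>
    simp only [rw']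
    split_ifs
    · exact h0
    · exact le_rfl

/-- total weight of a labelling -/
noncomputable def wt (col : V → K) (s : Finset V) (t : ℝ) (T : V → Option V) : ℝ :=
  ∏ w, rw' col s t w (T w)

lemma sum_wt (col : V → K) (s : Finset V) (t : ℝ) : ∑ T, wt col s t T = 1 := by
  unfold wt
  have h3 : ∑ T : V → Option V, ∏ w, rw' col s t w (T w) = ∏ w, ∑ l, rw' col s t w l := by
    rw [Finset.prod_univ_sum, Fintype.piFinset_univ]
  rw [h3]
  exact Finset.prod_eq_one fun w _ => sum_rw' col s t w

lemma wt_perm (col : V → K) (s : Finset V) (t : ℝ) (T : V → Option V) (π : Equiv.Perm V)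
    (hπ : ∀ v, col (π v) = col v) : wt col s t (fun w => T (π w)) = wt col s t T := by
  unfold wt
  have h1 : ∀ w, rw' col s t w (T (π w)) = rw' col s t (π w) (T (π w)) := by
    intro w
    cases T (π w) with
    | none => simp only [rw', nc, hπ w]
    | some u => simp only [rw', hπ w]
  rw [Finset.prod_congr rfl (fun w _ => h1 w)]
  exact Equiv.prod_comp π (fun w => rw' col s t w (T w))

lemma cnt_perm (s : Finset V) (T : V → Option V) (π : Equiv.Perm V) :
    cnt s (fun w => T (π w)) = cnt s T := by
  unfold cnt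
  refine Finset.prod_congr rfl fun u _ => ?_
  apply Finset.card_bij (fun w _ => π w)
  · intro w hw; simpa using hw
  · intro w _ w' _ h; exact π.injective h
  · intro w hw
    refine ⟨π.symm w, ?_, by simp⟩
    simpa using hw

/-- The normalising average. -/
noncomputable def Zed (col : V → K) (s : Finset V) (t : ℝ) : ℝ :=
  ∑ T ∈ univ.filter (fun T : V → Option V => ∀ u ∈ s, T u = some u), wt col s t T / cnt s T

lemma Zed_perm (col : V → K) (s : Finset V) (t : ℝ) (π : Equiv.Perm V)
    (hπ : ∀ v, col (π v) = col v) :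
    Zed col s t = ∑ T ∈ univ.filter (fun T : V → Option V => ∀ u ∈ s, T (π u) = some u),
      wt col s t T / cnt s T := by
  unfold Zed
  symm
  apply Finset.sum_bij (fun T _ w => T (π w))
  · intro T hT; simpa using hT
  · intro T _ T' _ h
    funext w
    have := congrFun h (π.symm w)
    simpa using this
  · intro T hT
    refine ⟨fun w => T (π.symm w), ?_, ?_⟩
    · simpa using hT
    · funext w; simp
  · intro T _
    rw [wt_perm col s t T π hπ, cnt_perm]

lemma orbit_mul_Zed {supp : E → Finset V} (hs : IsSupport supp) (col : V → K) (e : E) (t : ℝ)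
    (r : ℕ) (hr : (supp e).card ≤ r) (h0 : 0 ≤ t) (h1 : t ≤ 1 / ((r : ℝ) + 1)) (O : Finset E)
    (hO : ∀ e' ∈ O, ∃ π : Equiv.Perm V, (∀ v, col (π v) = col v) ∧ π • e = e') :
    (O.card : ℝ) * Zed col (supp e) t ≤ 1 := by
  classical
  choose! π hπ using hO
  set s := supp e with hsdef
  have e1 : (O.card : ℝ) * Zed col s t = ∑ e' ∈ O, ∑ T : V → Option V,
      if (∀ u ∈ s, T (π e' u) = some u) then wt col s t T / cnt s T else 0 := by
    rw [← nsmul_eq_mul, ← Finset.sum_const]
    refine Finset.sum_congr rfl fun e' he' => ?_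
    rw [Zed_perm col s t (π e') (hπ e' he').1, Finset.sum_filter]
  rw [e1, Finset.sum_comm, ← sum_wt col s t]
  refine Finset.sum_le_sum fun T _ => ?_
  rw [← Finset.sum_filter, Finset.sum_const, nsmul_eq_mul]
  have hw : 0 ≤ wt col s t T := Finset.prod_nonneg fun w _ => rw'_nonneg col s t r hr h0 h1 w _
  have hle : (O.filter (fun e' => ∀ u ∈ s, T (π e' u) = some u)).card ≤ cnt s T := by
    rw [← card_Phi]
    apply Finset.card_le_card_of_injOn (fun e' u => if u ∈ s then π e' u else u)
    · intro e' he'
      have he'' := Finset.mem_filter.1 (Finset.mem_coe.1 he')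
      rw [Finset.mem_coe, mem_Phi]
      refine ⟨fun u hu => ?_, fun u hu => ?_⟩
      · simp only [hu, if_true]; exact he''.2 u hu
      · simp only [hu, if_false]
    · intro e' he' e'' he'' heq
      replace he' := Finset.mem_filter.1 (Finset.mem_coe.1 he')
      replace he'' := Finset.mem_filter.1 (Finset.mem_coe.1 he'')
      rw [← (hπ e' he'.1).2, ← (hπ e'' he''.1).2]
      apply hs.smul_eq
      intro v hv
      have := congrFun heq v
      simp only [← hsdef] at hv
      simpa [hv] using this
  by_cases hc : cnt s T = 0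
  · rw [hc] at hle ⊢
    simp only [Nat.cast_zero, div_zero, mul_zero]
    exact hw
  · have hc' : (0 : ℝ) < cnt s T := by exact_mod_cast Nat.pos_of_ne_zero hc
    rw [mul_div_assoc', div_le_iff₀ hc', mul_comm]
    exact mul_le_mul_of_nonneg_left (by exact_mod_cast hle) hw

/-- Polynomial weights of the labels (with the labels of `s` fixed). -/
noncomputable def pw (col : V → K) (s : Finset V) (w : V) (l : Option V) : ℝ[X] :=
  if w ∈ s then (if l = some w then 1 else 0) else
    match l with
    | none => 1 - C (nc col s w : ℝ) * X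
    | some u => if u ∈ s ∧ col u = col w then X else 0

lemma pw_eval_notMem (col : V → K) (s : Finset V) (t : ℝ) (w : V) (hw : w ∉ s) (l : Option V) :
    (pw col s w l).eval t = rw' col s t w l := by
  unfold pw
  rw [if_neg hw]
  cases l with
  | none => simp [rw']
  | some u =>
    simp only [rw']
    split_ifs <;> simp

lemma sum_pw (col : V → K) (s : Finset V) (w : V) : ∑ l, pw col s w l = 1 := by
  by_cases hw : w ∈ s
  · unfold pw
    simp [hw]
  · apply Polynomial.funext
    intro t
    rw [eval_finsetSum, eval_one, ← sum_rw' col s t w]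
    exact Finset.sum_congr rfl fun l _ => pw_eval_notMem col s t w hw l

lemma pw_natDegree (col : V → K) (s : Finset V) (w : V) (l : Option V) :
    (pw col s w l).natDegree ≤ 1 := by
  unfold pw
  by_cases hw : w ∈ s
  · rw [if_pos hw]; split_ifs <;> simp
  · rw [if_neg hw]
    cases l with
    | none =>
      simp only
      refine (natDegree_sub_le _ _).trans (max_le (by simp) ?_)
      exact (natDegree_C_mul_le _ _).trans (by simp)
    | some u =>
      simp only
      split_ifs <;> simp

lemma wt_eq (col : V → K) (s : Finset V) (t : ℝ) (T : V → Option V)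
    (hT : ∀ u ∈ s, T u = some u) :
    wt col s t T = t ^ s.card * ∏ w, (pw col s w (T w)).eval t := by
  unfold wt
  rw [← Finset.prod_mul_prod_compl s (fun w => rw' col s t w (T w)),
    ← Finset.prod_mul_prod_compl s (fun w => (pw col s w (T w)).eval t)]
  have h1 : ∏ w ∈ s, rw' col s t w (T w) = t ^ s.card := by
    rw [Finset.prod_congr rfl (g := fun _ => t), Finset.prod_const]
    intro w hw
    rw [hT w hw]
    simp [rw', hw]
  have h2 : ∏ w ∈ s, (pw col s w (T w)).eval t = 1 := by
    apply Finset.prod_eq_one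
    intro w hw
    rw [hT w hw]
    simp [pw, hw]
  have h3 : ∏ w ∈ sᶜ, rw' col s t w (T w) = ∏ w ∈ sᶜ, (pw col s w (T w)).eval t := by
    refine Finset.prod_congr rfl fun w hw => ?_
    rw [pw_eval_notMem col s t w (by simpa using hw)]
  rw [h1, h2, h3, one_mul]

lemma prod_pw_zero (col : V → K) (s : Finset V) (t : ℝ) (T : V → Option V)
    (hT : ¬ ∀ u ∈ s, T u = some u) : ∏ w, (pw col s w (T w)).eval t = 0 := by
  push Not at hT
  obtain ⟨u, hu, h⟩ := hT
  apply Finset.prod_eq_zero (Finset.mem_univ u)
  simp [pw, hu, h]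

lemma good_of_wt (col : V → K) (s : Finset V) (t : ℝ) (T : V → Option V)
    (hT : ∀ u ∈ s, T u = some u) (hw : wt col s t T ≠ 0) : Good col s T := by
  refine ⟨hT, fun w u h => ?_⟩
  by_contra hcon
  apply hw
  unfold wt
  apply Finset.prod_eq_zero (Finset.mem_univ w)
  rw [h]
  simp only [rw']
  rw [if_neg hcon]

/-- Bound for the average of the derivative over the cloned configurations. -/
lemma EP_bound {supp : E → Finset V} (hs : IsSupport supp) {col : V → K} {c : Finset E → ℝ}
    {d : ℕ} (hd : ∀ S, d < S.card → c S = 0) (hc : Inv col c) {B : ℝ}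
    (hB : ∀ y, IsSgn y → |ml c y| ≤ B) (e : E) (x : E → ℝ) (hx : IsSgn x) (r : ℕ)
    (hr : (supp e).card ≤ r) (t : ℝ) (h0 : 0 < t) (h1 : t ≤ 1 / ((r : ℝ) + 1)) :
    t ^ (supp e).card *
      |(EP (pw col (supp e)) (fun T => dl c e (pull supp x (coll T)))).eval t| ≤
      (d : ℝ) ^ 2 * B * Zed col (supp e) t := by
  classical
  have hB0 : 0 ≤ B := (abs_nonneg _).trans (hB (fun _ => 1) (fun _ => Or.inl rfl))
  set s := supp e with hsdef
  rw [EP_eval]
  have e1 : t ^ s.card * |∑ T : V → Option V, dl c e (pull supp x (coll T)) *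
      ∏ w, (pw col s w (T w)).eval t| ≤
      ∑ T : V → Option V, t ^ s.card * (|dl c e (pull supp x (coll T))| *
      |∏ w, (pw col s w (T w)).eval t|) := by
    rw [← Finset.mul_sum]
    apply mul_le_mul_of_nonneg_left _ (by positivity)
    refine (Finset.abs_sum_le_sum_abs _ _).trans (le_of_eq ?_)
    refine Finset.sum_congr rfl fun T _ => ?_
    rw [abs_mul]
  refine e1.trans ?_
  unfold Zed
  rw [Finset.mul_sum, Finset.sum_filter]
  refine Finset.sum_le_sum fun T _ => ?_
  split_ifs with hT
  · have hw : 0 ≤ wt col s t T := Finset.prod_nonneg fun w _ => rw'_nonneg col s t r hr h0.le h1 w _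
    have hwe := wt_eq col s t T hT
    have hp : 0 ≤ ∏ w, (pw col s w (T w)).eval t := by
      rw [hwe] at hw
      exact nonneg_of_mul_nonneg_right hw (by positivity)
    rw [abs_of_nonneg hp]
    have e2 : t ^ s.card * (|dl c e (pull supp x (coll T))| * ∏ w, (pw col s w (T w)).eval t)
        = |dl c e (pull supp x (coll T))| * wt col s t T := by rw [hwe]; ring
    rw [e2]
    by_cases hw0 : wt col s t T = 0
    · rw [hw0]; simp
    · have hgood := good_of_wt col s t T hT hw0
      have hcl := dl_clone hs hd hc hB e x hx T hgood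
      rw [← hsdef] at hcl
      have hcnt : (0 : ℝ) < cnt s T := by
        have : 0 < cnt s T := by
          unfold cnt
          apply Finset.prod_pos
          intro u hu
          apply Finset.card_pos.2
          exact ⟨u, by simp [hT u hu]⟩
        exact_mod_cast this
      rw [mul_div_assoc', le_div_iff₀ hcnt]
      calc |dl c e (pull supp x (coll T))| * wt col s t T * cnt s T
          = (cnt s T * |dl c e (pull supp x (coll T))|) * wt col s t T := by ring
        _ ≤ (d : ℝ) ^ 2 * B * wt col s t T := mul_le_mul_of_nonneg_right hcl hw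
  · rw [prod_pw_zero col s t T hT]; simp

lemma EP_zero {supp : E → Finset V} (hs : IsSupport supp) (col : V → K) (c : Finset E → ℝ)
    (e : E) (x : E → ℝ) :
    (EP (pw col (supp e)) (fun T => dl c e (pull supp x (coll T)))).eval 0 = dl c e x := by
  classical
  rw [EP_eval]
  set s := supp e
  rw [Finset.sum_eq_single (fun w => if w ∈ s then some w else none)]
  · have h1 : pull supp x (coll fun w => if w ∈ s then some w else none) = x := by
      apply pull_id hs
      intro v
      unfold coll
      by_cases hv : v ∈ s <;> simp [hv]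
    rw [h1, Finset.prod_eq_one, mul_one]
    intro w _
    by_cases hw : w ∈ s
    · simp [pw, hw]
    · simp [pw, hw]
  · intro T _ hT
    have : ∃ w, T w ≠ if w ∈ s then some w else none := by
      by_contra hcon
      push Not at hcon
      exact hT (funext hcon)
    obtain ⟨w, hw⟩ := this
    rw [Finset.prod_eq_zero (Finset.mem_univ w), mul_zero]
    by_cases hws : w ∈ s
    · rw [if_pos hws] at hw
      simp [pw, hws, hw]
    · rw [if_neg hws] at hw
      cases hTw : T w with
      | none => exact absurd hTw hw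
      | some u =>
        by_cases h : u ∈ s ∧ col u = col w <;> simp [pw, hws, h]
  · intro h; exact absurd (Finset.mem_univ _) h

lemma EP_deg {supp : E → Finset V} (hs : IsSupport supp) (col : V → K) (c : Finset E → ℝ)
    {d : ℕ} (hd : ∀ S, d < S.card → c S = 0) (e : E) (x : E → ℝ) (r : ℕ)
    (hr : ∀ e, (supp e).card ≤ r) :
    (EP (pw col (supp e)) (fun T => dl c e (pull supp x (coll T)))).natDegree ≤ r * d := by
  classical
  unfold dl
  rw [EP_sum]
  refine natDegree_sum_le_of_forall_le _ _ fun S _ => ?_
  by_cases hS : d < S.card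
  · have : (fun T : V → Option V => if e ∈ S then c S * ∏ e' ∈ S.erase e, pull supp x (coll T) e'
        else 0) = fun _ => 0 := by
      funext T; rw [hd S hS]; simp
    rw [this]
    unfold EP
    simp
  · push Not at hS
    refine (EP_natDegree_le _ (sum_pw col _) (pw_natDegree col _) _ (S.biUnion supp) ?_).trans ?_
    · intro T T' h
      split_ifs with he
      · congr 1
        refine Finset.prod_congr rfl fun e' he' => ?_
        apply pull_congr hs
        intro v hv
        unfold coll
        rw [h v (Finset.mem_biUnion.2 ⟨e', Finset.mem_of_mem_erase he', hv⟩)]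
      · rfl
    · calc (S.biUnion supp).card ≤ ∑ e' ∈ S, (supp e').card := Finset.card_biUnion_le
        _ ≤ ∑ _e' ∈ S, r := Finset.sum_le_sum fun e' _ => hr e'
        _ = S.card * r := by simp
        _ ≤ d * r := Nat.mul_le_mul_right r hS
        _ = r * d := mul_comm _ _

/-- The main bound: derivatives in the directions of a large orbit are uniformly small. -/
theorem orbit_bound {supp : E → Finset V} (hs : IsSupport supp) {col : V → K}
    {c : Finset E → ℝ} {d : ℕ} (hd : ∀ S, d < S.card → c S = 0) (hc : Inv col c) {B : ℝ}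
    (hB : ∀ y, IsSgn y → |ml c y| ≤ B) (r : ℕ) (hr : ∀ e, (supp e).card ≤ r) (e : E)
    (O : Finset E) (hO : ∀ e' ∈ O, ∃ π : Equiv.Perm V, (∀ v, col (π v) = col v) ∧ π • e = e')
    (x : E → ℝ) (hx : IsSgn x) :
    (O.card : ℝ) * |dl c e x| ≤
      2 * (((r : ℝ) + 1) * (4 * ((r : ℝ) * d) ^ 2 + 1)) ^ r * ((d : ℝ) ^ 2 * B) := by
  have hB0 : 0 ≤ B := (abs_nonneg _).trans (hB (fun _ => 1) (fun _ => Or.inl rfl))
  rcases Nat.eq_zero_or_pos O.card with hO0 | hO0
  · rw [hO0]; simp; positivity
  have hOp : (0 : ℝ) < O.card := by exact_mod_cast hO0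
  set M : ℝ := ((r : ℝ) + 1) * (4 * ((r : ℝ) * d) ^ 2 + 1) with hM
  have hM1 : 1 ≤ M := by
    rw [hM]
    have h1 : (1 : ℝ) ≤ (r : ℝ) + 1 := by linarith [Nat.cast_nonneg (α := ℝ) r]
    have h2 : (1 : ℝ) ≤ 4 * ((r : ℝ) * d) ^ 2 + 1 := by nlinarith [sq_nonneg ((r : ℝ) * d)]
    nlinarith
  have hM0 : 0 < M := by linarith
  have hb0 : (0 : ℝ) < 1 / ((r : ℝ) + 1) := by positivity
  have key := extrapolate (n := r * d)
    (P := EP (pw col (supp e)) (fun T => dl c e (pull supp x (coll T))))
    (B := M ^ r * ((d : ℝ) ^ 2 * B) / O.card) hb0 (EP_deg hs col c hd e x r hr) ?_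
  · rw [EP_zero hs] at key
    calc (O.card : ℝ) * |dl c e x| ≤ O.card * (2 * (M ^ r * ((d : ℝ) ^ 2 * B) / O.card)) :=
          mul_le_mul_of_nonneg_left key hOp.le
      _ = 2 * M ^ r * ((d : ℝ) ^ 2 * B) := by field_simp
  · intro t ht
    have hta : 1 / M ≤ t := by
      refine le_trans (le_of_eq ?_) ht.1
      rw [hM, div_div]
      push_cast
      ring
    have ht0 : 0 < t := lt_of_lt_of_le (by positivity) hta
    have h1 := EP_bound hs hd hc hB e x hx r (hr e) t ht0 ht.2
    have h2 := orbit_mul_Zed hs col e t r (hr e) ht0.le ht.2 O hO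
    have h3 : Zed col (supp e) t ≤ 1 / O.card := by
      rw [le_div_iff₀ hOp, mul_comm]; exact h2
    have h4 : t ^ (supp e).card *
        |(EP (pw col (supp e)) (fun T => dl c e (pull supp x (coll T)))).eval t| ≤
        (d : ℝ) ^ 2 * B / O.card := by
      refine h1.trans ?_
      calc (d : ℝ) ^ 2 * B * Zed col (supp e) t ≤ (d : ℝ) ^ 2 * B * (1 / O.card) :=
            mul_le_mul_of_nonneg_left h3 (by positivity)
        _ = _ := by ring
    have h5 : 1 ≤ M ^ r * t ^ (supp e).card := by
      have h6 : M ^ (supp e).card ≤ M ^ r := pow_le_pow_right₀ hM1 (hr e)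
      have h7 : 1 ≤ M * t := by
        rw [div_le_iff₀ hM0] at hta; linarith
      calc (1 : ℝ) ≤ (M * t) ^ (supp e).card := one_le_pow₀ h7
        _ = M ^ (supp e).card * t ^ (supp e).card := mul_pow _ _ _
        _ ≤ M ^ r * t ^ (supp e).card := mul_le_mul_of_nonneg_right h6 (by positivity)
    set Y := |(EP (pw col (supp e)) (fun T => dl c e (pull supp x (coll T)))).eval t| with hY
    have hY0 : 0 ≤ Y := abs_nonneg _
    calc Y = 1 * Y := (one_mul _).symm
      _ ≤ (M ^ r * t ^ (supp e).card) * Y := mul_le_mul_of_nonneg_right h5 hY0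
      _ = M ^ r * (t ^ (supp e).card * Y) := by ring
      _ ≤ M ^ r * ((d : ℝ) ^ 2 * B / O.card) := mul_le_mul_of_nonneg_left h4 (by positivity)
      _ = M ^ r * ((d : ℝ) ^ 2 * B) / O.card := by ring

end Pool.Agent.H722R2.AA
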